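import Mathlib

/-!
# Euler circuits of finite digraphs and cyclic sequences read off from them
-/

namespace R91.GDB

open Relation

variable {E V : Type*} [Fintype E] [DecidableEq V]

theorem exists_perm (tl hd : E → V)
    (bal : ∀ v, (Finset.univ.filter (fun e => tl e = v)).card
      = (Finset.univ.filter (fun e => hd e = v)).card) :
    ∃ σ : Equiv.Perm E, ∀ e, tl (σ e) = hd e := by
  classical
  have h : ∀ v, Nonempty ({e // hd e = v} ≃ {e // tl e = v}) := by
    intro v
    apply Fintype.card_eq.mp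
    rw [Fintype.card_subtype, Fintype.card_subtype, bal v]
  refine ⟨(Equiv.sigmaFiberEquiv hd).symm.trans
    ((Equiv.sigmaCongrRight (fun v => (h v).some)).trans (Equiv.sigmaFiberEquiv tl)), ?_⟩
  intro e
  exact ((h (hd e)).some ⟨e, rfl⟩).2

theorem euler (tl hd : E → V)
    (bal : ∀ v, (Finset.univ.filter (fun e => tl e = v)).card
      = (Finset.univ.filter (fun e => hd e = v)).card) (e0 : E)
    (conn : ∀ f, ReflTransGen (fun e f => hd e = tl f) e0 f) :
    ∃ σ : Equiv.Perm E, (∀ e, tl (σ e) = hd e) ∧ ∀ f, σ.SameCycle e0 f := by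
  classical
  obtain ⟨σ0, hσ0⟩ := exists_perm tl hd bal
  have : Nonempty {σ : Equiv.Perm E // ∀ e, tl (σ e) = hd e} := ⟨⟨σ0, hσ0⟩⟩
  obtain ⟨⟨σ, hσ⟩, hmax⟩ := Finite.exists_max
    (fun σ : {σ : Equiv.Perm E // ∀ e, tl (σ e) = hd e} =>
      (Finset.univ.filter (fun f => σ.1.SameCycle e0 f)).card)
  refine ⟨σ, hσ, ?_⟩
  by_contra hne
  push Not at hne
  obtain ⟨g, hg⟩ := hne
  have hex : ∃ e f, σ.SameCycle e0 e ∧ ¬ σ.SameCycle e0 f ∧ hd e = tl f := by
    by_contra hcon
    push Not at hcon
    apply hg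
    have h1 := conn g
    clear hg
    induction h1 with
    | refl => exact Equiv.Perm.SameCycle.refl _ _
    | tail _ hstep ih =>
      by_contra h
      exact hcon _ _ ih h hstep
  obtain ⟨e, f, he, hf, hef⟩ := hex
  obtain ⟨f0, hf0⟩ : ∃ f0, σ f0 = f := σ.surjective f
  have hf0' : ¬ σ.SameCycle e0 f0 := by
    intro h
    apply hf
    rw [← hf0]
    exact (Equiv.Perm.sameCycle_apply_right).mpr h
  have hne : e ≠ f0 := by
    rintro rfl
    exact hf0' he
  let σ' : Equiv.Perm E := σ * Equiv.swap e f0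
  have h1 : σ' e = f := by
    simp [σ', Equiv.Perm.mul_apply, hf0]
  have h2 : σ' f0 = σ e := by
    simp [σ', Equiv.Perm.mul_apply]
  have h3 : ∀ x, x ≠ e → x ≠ f0 → σ' x = σ x := by
    intro x hx hx'
    simp [σ', Equiv.Perm.mul_apply, Equiv.swap_apply_of_ne_of_ne hx hx']
  have hσ' : ∀ x, tl (σ' x) = hd x := by
    intro x
    by_cases hx : x = e
    · rw [hx, h1, hef]
    · by_cases hx' : x = f0
      · rw [hx', h2, hσ, hef, ← hf0, hσ]
      · rw [h3 x hx hx', hσ]
  have hpow : ∀ i : ℕ, σ'.SameCycle f0 ((σ ^ (i+1)) e) := by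
    intro i
    induction i with
    | zero =>
      rw [zero_add, pow_one, ← h2]
      exact (Equiv.Perm.sameCycle_apply_right).mpr (Equiv.Perm.SameCycle.refl _ _)
    | succ i ih =>
      rw [pow_succ', Equiv.Perm.mul_apply]
      by_cases hx : (σ ^ (i+1)) e = e
      · rw [hx, ← h2]
        exact (Equiv.Perm.sameCycle_apply_right).mpr (Equiv.Perm.SameCycle.refl _ _)
      · have hx' : (σ ^ (i+1)) e ≠ f0 := by
          intro h
          apply hf0'
          rw [← h]
          exact (Equiv.Perm.sameCycle_pow_right).mpr he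
        rw [← h3 _ hx hx']
        exact (Equiv.Perm.sameCycle_apply_right).mpr ih
  have hall : ∀ x, σ.SameCycle e0 x → σ'.SameCycle f0 x := by
    intro x hx
    have h4 : σ.SameCycle e x := he.symm.trans hx
    obtain ⟨i, hi0, -, hi⟩ := h4.exists_pow_eq''
    rw [← hi]
    obtain ⟨j, rfl⟩ : ∃ j, i = j + 1 := ⟨i - 1, by omega⟩
    exact hpow j
  have hff : σ'.SameCycle f0 f := by
    rw [← h1]
    exact (Equiv.Perm.sameCycle_apply_right).mpr (hall e he)
  have he0 : σ'.SameCycle f0 e0 := hall e0 (Equiv.Perm.SameCycle.refl _ _)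
  have hlt := hmax ⟨σ', hσ'⟩
  simp only at hlt
  have hss : Finset.univ.filter (fun f => σ.SameCycle e0 f)
      ⊂ Finset.univ.filter (fun f => σ'.SameCycle e0 f) := by
    rw [Finset.ssubset_iff_of_subset]
    · refine ⟨f, ?_, ?_⟩
      · simpa using he0.symm.trans hff
      · simpa using hf
    · intro x hx
      simp only [Finset.mem_filter, Finset.mem_univ, true_and] at hx ⊢
      exact he0.symm.trans (hall x hx)
  exact absurd (Finset.card_lt_card hss) (not_lt.mpr hlt)

theorem euler_enum {n : ℕ} [NeZero n] (hn : Fintype.card E = n) (tl hd : E → V)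
    (bal : ∀ v, (Finset.univ.filter (fun e => tl e = v)).card
      = (Finset.univ.filter (fun e => hd e = v)).card)
    (conn : ∀ e f, ReflTransGen (fun e f => hd e = tl f) e f) :
    ∃ c : ZMod n → E, Function.Bijective c ∧ ∀ i, hd (c i) = tl (c (i + 1)) := by
  classical
  have hpos : 0 < Fintype.card E := by rw [hn]; exact Nat.pos_of_ne_zero (NeZero.ne n)
  obtain ⟨e0⟩ := Fintype.card_pos_iff.mp hpos
  obtain ⟨σ, hσ, hcyc⟩ := euler tl hd bal e0 (conn e0)
  have hon : σ.IsCycleOn ((Finset.univ : Finset E) : Set E) := by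
    refine ⟨?_, ?_⟩
    · simp [σ.bijective]
    · intro x _ y _
      exact (hcyc x).symm.trans (hcyc y)
  have hkey : ∀ a b : ℕ, (σ ^ a) e0 = (σ ^ b) e0 ↔ a ≡ b [MOD n] := by
    intro a b
    have := hon.pow_apply_eq_pow_apply (Finset.mem_univ e0) (m := a) (n := b)
    rwa [Finset.card_univ, hn] at this
  refine ⟨fun i => (σ ^ i.val) e0, ?_, ?_⟩
  · have hinj : Function.Injective (fun i : ZMod n => (σ ^ i.val) e0) := by
      intro i j hij
      have h1 := (hkey _ _).mp hij
      have h2 := (ZMod.natCast_eq_natCast_iff _ _ _).mpr h1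
      simpa using h2
    rw [Fintype.bijective_iff_injective_and_card]
    exact ⟨hinj, by rw [ZMod.card, hn]⟩
  · intro i
    have h1 : (σ ^ (i+1).val) e0 = σ ((σ ^ i.val) e0) := by
      rw [← Equiv.Perm.mul_apply, ← pow_succ', hkey, ← ZMod.natCast_eq_natCast_iff]
      simp
    simp only
    rw [h1, hσ]

/-- Cyclic sequences from balanced connected families of words of length `L+1`. -/
theorem seq_of_edges {K : Type*} [DecidableEq K] {L n : ℕ} [NeZero n]
    (hn : Fintype.card E = n) (wd : E → (Fin (L+1) → K))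
    (bal : ∀ v : Fin L → K, (Finset.univ.filter (fun e => Fin.init (wd e) = v)).card
      = (Finset.univ.filter (fun e => Fin.tail (wd e) = v)).card)
    (conn : ∀ e f, ReflTransGen (fun e f => Fin.tail (wd e) = Fin.init (wd f)) e f) :
    ∃ a : ZMod n → K, ∃ c : ZMod n → E, Function.Bijective c ∧
      ∀ i (j : Fin (L+1)), a (i + ((j : ℕ) : ZMod n)) = wd (c i) j := by
  obtain ⟨c, hc, hstep⟩ := euler_enum hn (fun e => Fin.init (wd e)) (fun e => Fin.tail (wd e))
    bal conn
  refine ⟨fun i => wd (c i) 0, c, hc, ?_⟩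
  have key : ∀ (j : ℕ) (hj : j < L + 1) (i : ZMod n),
      wd (c (i + (j : ZMod n))) 0 = wd (c i) ⟨j, hj⟩ := by
    intro j
    induction j with
    | zero => intro hj i; simp
    | succ j ih =>
      intro hj i
      have h1 := ih (by omega) (i + 1)
      have h2 : i + ((j + 1 : ℕ) : ZMod n) = i + 1 + (j : ZMod n) := by
        push_cast; ring
      rw [h2, h1]
      have h3 := congrFun (hstep i) ⟨j, by omega⟩
      simp only [Fin.tail, Fin.init] at h3
      exact h3.symm
  intro i j
  exact key j.1 j.2 i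

/-- occurrence counts -/
theorem seq_counts {K : Type*} [DecidableEq K] {L n : ℕ} [NeZero n]
    (hn : Fintype.card E = n) (wd : E → (Fin (L+1) → K))
    (bal : ∀ v : Fin L → K, (Finset.univ.filter (fun e => Fin.init (wd e) = v)).card
      = (Finset.univ.filter (fun e => Fin.tail (wd e) = v)).card)
    (conn : ∀ e f, ReflTransGen (fun e f => Fin.tail (wd e) = Fin.init (wd f)) e f) :
    ∃ a : ZMod n → K,
      (∀ w : Fin (L+1) → K,
        (Finset.univ.filter (fun i : ZMod n => ∀ j : Fin (L+1), a (i + ((j : ℕ) : ZMod n)) = w j)).card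
        = (Finset.univ.filter (fun e : E => wd e = w)).card) ∧
      (∀ x : K, (Finset.univ.filter (fun i : ZMod n => a i = x)).card
        = (Finset.univ.filter (fun e : E => wd e 0 = x)).card) := by
  obtain ⟨a, c, hc, ha⟩ := seq_of_edges hn wd bal conn
  refine ⟨a, ?_, ?_⟩
  · intro w
    apply Finset.card_bij (fun i _ => c i)
    · intro i hi
      simp only [Finset.mem_filter, Finset.mem_univ, true_and] at hi ⊢
      funext j
      rw [← ha, hi]
    · intro i _ j _ h
      exact hc.1 h
    · intro e he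
      obtain ⟨i, rfl⟩ := hc.2 e
      refine ⟨i, ?_, rfl⟩
      simp only [Finset.mem_filter, Finset.mem_univ, true_and] at he ⊢
      intro j
      rw [ha, he]
  · intro x
    have h0 : ∀ i, a i = wd (c i) 0 := by
      intro i
      have := ha i 0
      simpa using this
    apply Finset.card_bij (fun i _ => c i)
    · intro i hi
      simp only [Finset.mem_filter, Finset.mem_univ, true_and] at hi ⊢
      rw [← h0, hi]
    · intro i _ j _ h
      exact hc.1 h
    · intro e he
      obtain ⟨i, rfl⟩ := hc.2 e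
      refine ⟨i, ?_, rfl⟩
      simp only [Finset.mem_filter, Finset.mem_univ, true_and] at he ⊢
      rw [h0, he]

end R91.GDB
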