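import Mathlib

/-!
# Counted walks in families of words, lifts of families of words
-/

namespace R91.GDB

open Relation

variable {m : ℕ}

/-- words of length `L+1` over `ZMod m` -/
abbrev Wd (m L : ℕ) := Fin (L+1) → ZMod m

/-- walks in `H`: `k` counts steps, `s` sums up first letters, `t` sums up the partial sums -/
inductive Wlk {L : ℕ} (H : Finset (Wd m L)) (e : Wd m L) :
    Wd m L → ZMod m → ZMod m → ZMod m → Prop
  | refl : e ∈ H → Wlk H e e 0 0 0
  | step {e' e'' : Wd m L} {k s t : ZMod m} : Wlk H e e' k s t → e'' ∈ H →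
      Fin.tail e' = Fin.init e'' → Wlk H e e'' (k + 1) (s + e' 0) (t + s)

theorem Wlk.left_mem {L : ℕ} {H : Finset (Wd m L)} {e e' : Wd m L} {k s t : ZMod m}
    (h : Wlk H e e' k s t) : e ∈ H := by
  induction h with
  | refl h => exact h
  | step _ _ _ ih => exact ih

theorem Wlk.right_mem {L : ℕ} {H : Finset (Wd m L)} {e e' : Wd m L} {k s t : ZMod m}
    (h : Wlk H e e' k s t) : e' ∈ H := by
  cases h with
  | refl h => exact h
  | step _ h _ => exact h

theorem Wlk.mono {L : ℕ} {H H' : Finset (Wd m L)} (hH : H ⊆ H') {e e' : Wd m L}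
    {k s t : ZMod m} (h : Wlk H e e' k s t) : Wlk H' e e' k s t := by
  induction h with
  | refl h => exact Wlk.refl (hH h)
  | step _ h1 h2 ih => exact Wlk.step ih (hH h1) h2

theorem Wlk.cast {L : ℕ} {H : Finset (Wd m L)} {e e' : Wd m L} {k s t k' s' t' : ZMod m}
    (h : Wlk H e e' k s t) (hk : k = k') (hs : s = s') (ht : t = t') : Wlk H e e' k' s' t' := by
  subst hk; subst hs; subst ht; exact h

theorem Wlk.mul {L : ℕ} {H : Finset (Wd m L)} {e e' e'' : Wd m L} {k s t k' s' t' : ZMod m}
    (h : Wlk H e e' k s t) (h' : Wlk H e' e'' k' s' t') :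
    Wlk H e e'' (k + k') (s + s') (t + t' + k' * s) := by
  induction h' with
  | refl _ => exact h.cast (by ring) (by ring) (by ring)
  | step _ h1 h2 ih => exact (Wlk.step ih h1 h2).cast (by ring) (by ring) (by ring)

theorem Wlk.pow {L : ℕ} {H : Finset (Wd m L)} {e : Wd m L} {k s t : ZMod m}
    (h : Wlk H e e k s t) (n : ℕ) :
    ∃ t', Wlk H e e (n * k) (n * s) t' := by
  induction n with
  | zero => exact ⟨0, (Wlk.refl h.left_mem).cast (by simp) (by simp) rfl⟩
  | succ n ih =>
    obtain ⟨t', ht'⟩ := ih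
    exact ⟨_, (ht'.mul h).cast (by push_cast; ring) (by push_cast; ring) rfl⟩

/-- all endpoints, counts and sums can be realised -/
def QQ {L : ℕ} (H : Finset (Wd m L)) : Prop :=
  ∀ e ∈ H, ∀ e' ∈ H, ∀ k s : ZMod m, ∃ t, Wlk H e e' k s t

theorem QQ_of_walks [NeZero m] {L : ℕ} {H : Finset (Wd m L)} {e0 : Wd m L}
    (hto : ∀ e ∈ H, ∃ k s t, Wlk H e e0 k s t)
    (hfrom : ∀ e ∈ H, ∃ k s t, Wlk H e0 e k s t)
    {k1 s1 t1 k2 s2 t2 : ZMod m} (h1 : Wlk H e0 e0 k1 s1 t1) (h2 : Wlk H e0 e0 k2 s2 t2)
    (hdet : k1 * s2 - k2 * s1 = 1) : QQ H := by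
  intro e he e' he' k s
  obtain ⟨ka, sa, ta, hA⟩ := hto e he
  obtain ⟨kb, sb, tb, hB⟩ := hfrom e' he'
  set K := k - ka - kb with hK
  set S := s - sa - sb with hS
  obtain ⟨u1, hu1⟩ := h1.pow (K * s2 - S * k2).val
  obtain ⟨u2, hu2⟩ := h2.pow (k1 * S - s1 * K).val
  rw [ZMod.natCast_zmod_val] at hu1 hu2
  refine ⟨_, (((hA.mul hu1).mul hu2).mul hB).cast ?_ ?_ rfl⟩
  · have : (K * s2 - S * k2) * k1 + (k1 * S - s1 * K) * k2 = K * (k1 * s2 - k2 * s1) := by ring
    rw [hdet, mul_one] at this
    linear_combination this + hK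
  · have : (K * s2 - S * k2) * s1 + (k1 * S - s1 * K) * s2 = S * (k1 * s2 - k2 * s1) := by ring
    rw [hdet, mul_one] at this
    linear_combination this + hS

/-- the full version with three counts -/
theorem QQ.full [NeZero m] {L : ℕ} {H : Finset (Wd m L)} (hQ : QQ H) :
    ∀ e ∈ H, ∀ e' ∈ H, ∀ k s t : ZMod m, Wlk H e e' k s t := by
  intro e he e' he' k s t
  obtain ⟨t1, hA⟩ := hQ e he e he 1 0
  obtain ⟨t2, hB⟩ := hQ e he e he 0 1
  have hX : Wlk H e e 1 1 (t1 + t2) := (hA.mul hB).cast (by ring) (by ring) (by ring)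
  have hY : Wlk H e e 1 1 (t1 + t2 + 1) := (hB.mul hA).cast (by ring) (by ring) (by ring)
  have hpow : ∀ n : ℕ, Wlk H e e n n (n * (t1 + t2) + (n.choose 2 : ℕ)) := by
    intro n
    induction n with
    | zero => exact (Wlk.refl he).cast (by simp) (by simp) (by simp)
    | succ n ih =>
      refine (ih.mul hX).cast (by push_cast; ring) (by push_cast; ring) ?_
      have : (n+1).choose 2 = n + n.choose 2 := by
        rw [Nat.choose_succ_succ' n 1, Nat.choose_one_right]
      rw [this]; push_cast; ring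
  have hm : 0 < m := Nat.pos_of_ne_zero (NeZero.ne m)
  have hone : Wlk H e e 0 0 1 := by
    obtain ⟨N, hN⟩ : ∃ N, 2 * m = N + 1 := ⟨2 * m - 1, by omega⟩
    have h1 : ((N + 1 : ℕ) : ZMod m) = 0 := by
      rw [← hN]; push_cast; simp
    have h2 : (((N+1).choose 2 : ℕ) : ZMod m) = 0 := by
      have h3 : (N+1).choose 2 = m * (2 * m - 1) := by
        rw [← hN, Nat.choose_two_right, mul_assoc, Nat.mul_div_cancel_left _ (by norm_num)]
      rw [h3]; push_cast; simp
    have h4 : (N+1).choose 2 = N + N.choose 2 := by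
      rw [Nat.choose_succ_succ' N 1, Nat.choose_one_right]
    rw [h4] at h2
    push_cast at h1 h2
    refine ((hpow N).mul hY).cast ?_ ?_ ?_
    · exact h1
    · exact h1
    · linear_combination (t1 + t2) * h1 + h2
  have hmul : ∀ n : ℕ, Wlk H e e 0 0 n := by
    intro n
    induction n with
    | zero => exact (Wlk.refl he).cast rfl rfl (by simp)
    | succ n ih => exact (ih.mul hone).cast (by ring) (by ring) (by push_cast; ring)
  obtain ⟨t0, hC⟩ := hQ e he e' he' k s
  have h5 := hmul (t - t0).val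
  rw [ZMod.natCast_zmod_val] at h5
  exact (h5.mul hC).cast (by ring) (by ring) (by ring)

/-- the difference word -/
def DD {L : ℕ} (f : Fin (L+1) → ZMod m) : Fin L → ZMod m := fun j => f j.succ - f j.castSucc

theorem DD_tail {L : ℕ} (f : Fin (L+2) → ZMod m) :
    DD (Fin.tail f : Fin (L+1) → ZMod m) = Fin.tail (DD f) := by
  funext j
  simp [DD, Fin.tail]

theorem DD_init {L : ℕ} (f : Fin (L+2) → ZMod m) :
    DD (Fin.init f : Fin (L+1) → ZMod m) = Fin.init (DD f) := by
  funext j
  simp [DD, Fin.init]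

theorem DD_inj {L : ℕ} {f g : Fin (L+1) → ZMod m} (h : DD f = DD g) (h0 : f 0 = g 0) : f = g := by
  funext i
  induction i using Fin.induction with
  | zero => exact h0
  | succ i ih =>
    have h1 := congrFun h i
    simp only [DD] at h1
    rw [ih] at h1
    exact sub_left_injective h1

/-- the word with first letter `y` and differences `e` -/
def II {L : ℕ} (y : ZMod m) (e : Fin L → ZMod m) : Fin (L+1) → ZMod m :=
  fun i => y + Fin.partialSum e i

@[simp] theorem II_zero {L : ℕ} (y : ZMod m) (e : Fin L → ZMod m) : II y e 0 = y := by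
  simp [II]

@[simp] theorem DD_II {L : ℕ} (y : ZMod m) (e : Fin L → ZMod m) : DD (II y e) = e := by
  funext j
  simp [DD, II, Fin.partialSum_succ]

theorem II_one {L : ℕ} (y : ZMod m) (e : Fin (L+1) → ZMod m) : II y e 1 = y + e 0 := by
  have h := congrFun (DD_II y e) 0
  simp only [DD, Fin.succ_zero_eq_one, Fin.castSucc_zero, II_zero] at h
  rw [← h]; ring

/-- the lift of a family of words -/
def lft [NeZero m] {L : ℕ} (H : Finset (Wd m L)) : Finset (Wd m (L+1)) :=
  Finset.univ.filter (fun f => DD f ∈ H)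

@[simp] theorem mem_lift [NeZero m] {L : ℕ} {H : Finset (Wd m L)} {f : Wd m (L+1)} :
    f ∈ lft H ↔ DD f ∈ H := by
  simp [lft]

theorem step_lift {L : ℕ} {f f' : Wd m (L+1)}
    (h1 : Fin.tail (DD f) = Fin.init (DD f')) (h2 : f' 0 = f 0 + DD f 0) :
    Fin.tail f = Fin.init f' := by
  apply DD_inj
  · rw [DD_tail, DD_init, h1]
  · change f 1 = f' 0
    rw [h2]
    simp [DD]

theorem Wlk.lift [NeZero m] {L : ℕ} {H : Finset (Wd m L)} {e e' : Wd m L} {k s t : ZMod m}
    (h : Wlk H e e' k s t) (y : ZMod m) :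
    ∃ t', Wlk (lft H) (II y e) (II (y + s) e') k (t + k * y) t' := by
  induction h with
  | refl h => exact ⟨0, by simpa using Wlk.refl (H := lft H) (e := II y e) (by simpa using h)⟩
  | @step e' e'' k s t _ h1 h2 ih =>
    obtain ⟨t', ht'⟩ := ih
    refine ⟨_, (Wlk.step ht' (e'' := II (y + (s + e' 0)) e'') ?_ ?_).cast rfl ?_ rfl⟩
    · simpa using h1
    · apply step_lift
      · simpa using h2
      · simp only [II_zero, DD_II]; ring
    · simp only [II_zero]; ring

theorem QQ.lift [NeZero m] {L : ℕ} {H : Finset (Wd m L)} (hQ : QQ H) : QQ (lft H) := by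
  intro f hf f' hf' k s
  rw [mem_lift] at hf hf'
  have h := hQ.full _ hf _ hf' k (f' 0 - f 0) (s - k * f 0)
  obtain ⟨t', ht'⟩ := h.lift (f 0)
  refine ⟨t', ?_⟩
  have e1 : II (f 0) (DD f) = f := DD_inj (by simp) (by simp)
  have e2 : II (f 0 + (f' 0 - f 0)) (DD f') = f' := DD_inj (by simp) (by simp)
  rw [e1, e2] at ht'
  exact ht'.cast rfl (by ring) rfl

/-- balanced families of words -/
def Bal {L : ℕ} (H : Finset (Wd m L)) : Prop :=
  ∀ v : Fin L → ZMod m, (H.filter (fun e => Fin.init e = v)).card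
    = (H.filter (fun e => Fin.tail e = v)).card

theorem Bal.lift [NeZero m] {L : ℕ} {H : Finset (Wd m L)} (hB : Bal H) : Bal (lft H) := by
  intro v
  have h1 : ((lft H).filter (fun e => Fin.init e = v)).card
      = (H.filter (fun e => Fin.init e = DD v)).card := by
    apply Finset.card_bij (fun f _ => DD f)
    · intro f hf
      simp only [Finset.mem_filter, mem_lift] at hf ⊢
      exact ⟨hf.1, by rw [← DD_init, hf.2]⟩
    · intro f hf g hg h
      simp only [Finset.mem_filter, mem_lift] at hf hg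
      apply DD_inj h
      have h3 := congrFun hf.2 0
      have h4 := congrFun hg.2 0
      simp only [Fin.init, Fin.castSucc_zero] at h3 h4
      rw [h3, h4]
    · intro e he
      simp only [Finset.mem_filter] at he
      refine ⟨II (v 0) e, ?_, DD_II _ _⟩
      simp only [Finset.mem_filter, mem_lift, DD_II]
      refine ⟨he.1, ?_⟩
      apply DD_inj
      · rw [DD_init, DD_II, he.2]
      · change II (v 0) e 0 = v 0
        simp
  have h2 : ((lft H).filter (fun e => Fin.tail e = v)).card
      = (H.filter (fun e => Fin.tail e = DD v)).card := by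
    apply Finset.card_bij (fun f _ => DD f)
    · intro f hf
      simp only [Finset.mem_filter, mem_lift] at hf ⊢
      exact ⟨hf.1, by rw [← DD_tail, hf.2]⟩
    · intro f hf g hg h
      simp only [Finset.mem_filter, mem_lift] at hf hg
      apply DD_inj h
      have h3 := congrFun hf.2 0
      have h4 := congrFun hg.2 0
      have h5 := congrFun h 0
      simp only [Fin.tail, DD, Fin.castSucc_zero] at h3 h4 h5
      rw [h3, h4] at h5
      exact sub_right_injective h5
    · intro e he
      simp only [Finset.mem_filter] at he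
      refine ⟨II (v 0 - e 0) e, ?_, DD_II _ _⟩
      simp only [Finset.mem_filter, mem_lift, DD_II]
      refine ⟨he.1, ?_⟩
      apply DD_inj
      · rw [DD_tail, DD_II, he.2]
      · change II (v 0 - e 0) e 1 = v 0
        rw [II_one]; ring
  rw [h1, h2, hB]

theorem lift_filter_card [NeZero m] {L : ℕ} (H : Finset (Wd m L)) (x : ZMod m) :
    ((lft H).filter (fun e => e 0 = x)).card = H.card := by
  apply Finset.card_bij (fun f _ => DD f)
  · intro f hf
    simp only [Finset.mem_filter, mem_lift] at hf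
    exact hf.1
  · intro f hf g hg h
    simp only [Finset.mem_filter, mem_lift] at hf hg
    exact DD_inj h (by rw [hf.2, hg.2])
  · intro e he
    exact ⟨II x e, by simpa using he, DD_II _ _⟩

theorem lift_card [NeZero m] {L : ℕ} (H : Finset (Wd m L)) :
    (lft H).card = m * H.card := by
  have h := Finset.card_eq_sum_card_fiberwise (s := lft H) (t := Finset.univ)
    (f := fun e => e 0) (fun _ _ => Finset.mem_coe.mpr (Finset.mem_univ _))
  rw [h]
  simp only [lift_filter_card, Finset.sum_const, Finset.card_univ, ZMod.card, smul_eq_mul]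

theorem lift_univ [NeZero m] {L : ℕ} : lft (Finset.univ : Finset (Wd m L)) = Finset.univ := by
  ext f; simp

end R91.GDB
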