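import Mathlib
import Pool.Agent.R91.GDB.Walk

/-!
# Good families of words of all needed sizes
-/

namespace R91.GDB

open Relation

variable {m : ℕ}

theorem QQ_zero [NeZero m] (H : Finset (Wd m 0)) (h1 : (fun _ => 1 : Wd m 0) ∈ H)
    (h2 : (fun _ => 2 : Wd m 0) ∈ H) : QQ H := by
  have hstep : ∀ e ∈ H, ∀ e' ∈ H, ∀ {e0 : Wd m 0} {k s t : ZMod m}, Wlk H e0 e k s t →
      Wlk H e0 e' (k + 1) (s + e 0) (t + s) := by
    intro e _ e' he' e0 k s t h
    exact h.step he' (Subsingleton.elim _ _)
  refine QQ_of_walks (e0 := fun _ => 1) (k1 := 1) (s1 := 1) (t1 := 0) (k2 := 2) (s2 := 3) (t2 := 1)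
    ?_ ?_ ?_ ?_ (by ring)
  · intro e he
    exact ⟨_, _, _, hstep e he _ h1 (Wlk.refl he)⟩
  · intro e he
    exact ⟨_, _, _, hstep _ h1 _ he (Wlk.refl h1)⟩
  · exact (hstep _ h1 _ h1 (Wlk.refl h1)).cast (by ring) (by ring) (by ring)
  · exact (hstep _ h2 _ h1 (hstep _ h1 _ h2 (Wlk.refl h1))).cast (by ring) (by ring) (by ring)

theorem Bal_zero (H : Finset (Wd m 0)) : Bal H := by
  intro v
  congr 1

/-- constant words -/
def cst (m L : ℕ) : ZMod m ↪ Wd m L := ⟨fun c => (fun _ => c), fun _ _ h => congrFun h 0⟩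

@[simp] theorem cst_apply {L : ℕ} (c : ZMod m) (j : Fin (L+1)) : cst m L c j = c := rfl

/-- good families -/
structure Good {L : ℕ} (H : Finset (Wd m L)) : Prop where
  bal : Bal H
  qq : QQ H
  z : ∃ e ∈ H, Fin.init e = 0
  nz : (0 : Wd m L) ∉ H

theorem good_zero (hm : 3 ≤ m) (s : ℕ) (h2 : 2 ≤ s) (hs : s < m) :
    ∃ H : Finset (Wd m 0), Good H ∧ H.card = s := by
  have : NeZero m := ⟨by omega⟩
  have : Fact (1 < m) := ⟨by omega⟩
  have h20 : (2 : ZMod m) ≠ 0 := by
    intro h
    have : ((2 : ℕ) : ZMod m) = 0 := by exact_mod_cast h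
    rw [ZMod.natCast_eq_zero_iff] at this
    exact absurd (Nat.le_of_dvd (by norm_num) this) (by omega)
  have h12 : (1 : ZMod m) ≠ 2 := by
    intro h
    have : (1 : ZMod m) = 0 := by linear_combination (-1 : ZMod m) * h
    exact one_ne_zero this
  obtain ⟨S, hS1, hS2, hS3⟩ := Finset.exists_subsuperset_card_eq
    (s := ({1, 2} : Finset (ZMod m))) (t := Finset.univ.erase 0) (n := s)
    (by
      intro x hx
      simp only [Finset.mem_insert, Finset.mem_singleton] at hx
      rcases hx with rfl | rfl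
      · simp
      · simp [h20])
    (by rw [Finset.card_pair h12]; exact h2)
    (by rw [Finset.card_erase_of_mem (Finset.mem_univ _), Finset.card_univ, ZMod.card]; omega)
  refine ⟨S.map (cst m 0), ⟨Bal_zero _, QQ_zero _ ?_ ?_, ?_, ?_⟩, ?_⟩
  · simp only [Finset.mem_map]
    exact ⟨1, hS1 (by simp), rfl⟩
  · simp only [Finset.mem_map]
    exact ⟨2, hS1 (by simp), rfl⟩
  · refine ⟨fun _ => 1, ?_, Subsingleton.elim _ _⟩
    simp only [Finset.mem_map]
    exact ⟨1, hS1 (by simp), rfl⟩
  · simp only [Finset.mem_map, not_exists, not_and]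
    intro x hx h
    have h1 := hS2 hx
    have h3 : x = 0 := congrFun h 0
    rw [h3] at h1
    simp at h1
  · rw [Finset.card_map, hS3]

theorem good_succ {L : ℕ} (hm : 3 ≤ m) {q : ℕ}
    (hq : ∃ H : Finset (Wd m L), Good H ∧ H.card = q) (r : ℕ) (hr : r < m) :
    ∃ H : Finset (Wd m (L+1)), Good H ∧ H.card = m * q + r := by
  classical
  have : NeZero m := ⟨by omega⟩
  obtain ⟨H, hH, rfl⟩ := hq
  obtain ⟨R, hR1, hR2⟩ := Finset.exists_subset_card_eq
    (s := (Finset.univ.erase 0 : Finset (ZMod m))) (n := r)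
    (by rw [Finset.card_erase_of_mem (Finset.mem_univ _), Finset.card_univ, ZMod.card]; omega)
  have hcst : ∀ c, DD (cst m (L+1) c) = 0 := by
    intro c; funext j; simp [DD]
  have hdisj : Disjoint (lft H) (R.map (cst m (L+1))) := by
    rw [Finset.disjoint_left]
    intro f hf hf'
    simp only [Finset.mem_map] at hf'
    obtain ⟨c, _, rfl⟩ := hf'
    rw [mem_lift, hcst] at hf
    exact hH.nz hf
  -- an element of the lift leaving each constant word
  obtain ⟨e0, he0, he0'⟩ := hH.z
  have hout : ∀ c : ZMod m, ∃ f ∈ lft H, Fin.init f = (fun _ => c) := by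
    intro c
    refine ⟨II c e0, by simpa using he0, ?_⟩
    apply DD_inj
    · rw [DD_init, DD_II, he0']; funext j; simp [DD]
    · change II c e0 0 = c
      simp
  have hin : ∀ c : ZMod m, ∃ f ∈ lft H, Fin.tail f = (fun _ => c) := by
    intro c
    have hb := hH.bal.lift (fun _ => c)
    obtain ⟨f, hf, hf'⟩ := hout c
    have h1 : 0 < ((lft H).filter (fun e => Fin.init e = (fun _ => c : Fin (L+1) → ZMod m))).card := by
      rw [Finset.card_pos]
      exact ⟨f, by simpa using ⟨by simpa using hf, hf'⟩⟩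
    rw [hb, Finset.card_pos] at h1
    obtain ⟨g, hg⟩ := h1
    rw [Finset.mem_filter] at hg
    exact ⟨g, hg.1, hg.2⟩
  have hQ := hH.qq.lift
  set H' := (lft H) ∪ (R.map (cst m (L+1))) with hH'
  have hsub : lft H ⊆ H' := Finset.subset_union_left
  refine ⟨H', ⟨?_, ?_, ?_, ?_⟩, ?_⟩
  · intro v
    rw [hH', Finset.filter_union, Finset.filter_union,
      Finset.card_union_of_disjoint, Finset.card_union_of_disjoint, hH.bal.lift v]
    · congr 2
      apply Finset.filter_congr
      intro f hf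
      simp only [Finset.mem_map] at hf
      obtain ⟨c, _, rfl⟩ := hf
      have : (Fin.init (cst m (L+1) c) : Fin (L+1) → ZMod m) = Fin.tail (cst m (L+1) c) := rfl
      rw [this]
    · exact Finset.disjoint_filter_filter hdisj
    · exact Finset.disjoint_filter_filter hdisj
  · -- QQ
    -- walks into the lift
    have hto : ∀ e ∈ H', ∀ e' ∈ lft H, ∀ k s : ZMod m, ∃ t, Wlk H' e e' k s t := by
      intro e he e' he' k s
      rw [hH', Finset.mem_union] at he
      rcases he with he | he
      · obtain ⟨t, ht⟩ := hQ e he e' he' k s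
        exact ⟨t, ht.mono hsub⟩
      · have heH : e ∈ H' := by rw [hH', Finset.mem_union]; exact Or.inr he
        simp only [Finset.mem_map] at he
        obtain ⟨c, _, rfl⟩ := he
        obtain ⟨f, hf, hf'⟩ := hout c
        have h1 : Wlk H' (cst m (L+1) c) f (0 + 1) (0 + (cst m (L+1) c) 0) (0 + 0) :=
          (Wlk.refl heH).step (hsub hf) (by rw [hf']; rfl)
        obtain ⟨t, ht⟩ := hQ f hf e' he' (k - 1) (s - (cst m (L+1) c) 0)
        exact ⟨_, (h1.mul (ht.mono hsub)).cast (by ring) (by ring) rfl⟩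
    intro e he e' he' k s
    rw [hH', Finset.mem_union] at he'
    rcases he' with he' | he'
    · exact hto e he e' he' k s
    · have heH : e' ∈ H' := by rw [hH', Finset.mem_union]; exact Or.inr he'
      simp only [Finset.mem_map] at he'
      obtain ⟨c, _, rfl⟩ := he'
      obtain ⟨f, hf, hf'⟩ := hin c
      obtain ⟨t, ht⟩ := hto e he f hf (k - 1) (s - f 0)
      exact ⟨_, (ht.step heH (by rw [hf']; rfl)).cast (by ring) (by ring) rfl⟩
  · obtain ⟨f, hf, hf'⟩ := hout 0
    exact ⟨f, hsub hf, hf'⟩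
  · rw [hH', Finset.mem_union, not_or]
    constructor
    · rw [mem_lift]
      have : DD (0 : Wd m (L+1)) = 0 := by funext j; simp [DD]
      rw [this]
      exact hH.nz
    · simp only [Finset.mem_map, not_exists, not_and]
      intro c hc h
      have h1 : c = 0 := congrFun h 0
      rw [h1] at hc
      simpa using hR1 hc
  · rw [hH', Finset.card_union_of_disjoint hdisj, lift_card, Finset.card_map, hR2]

end R91.GDB
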