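import Mathlib
import Pool.Agent.R91.GDB.Good

/-!
# Good families of words of length two, and of all sizes
-/

namespace R91.GDB

open Relation

variable {m : ℕ}

/-- star-like families of words of length two -/
def star (C D : Finset (ZMod m)) : Finset (Wd m 1) :=
  (C.image (fun y => ![1, y])) ∪ (((C.erase 1).image (fun x => ![x, 1])) ∪
    (D.image (fun x => ![x, x])))

theorem star_card (C D : Finset (ZMod m)) (hC : (1 : ZMod m) ∈ C) (hD : (1 : ZMod m) ∉ D) :
    (star C D).card = C.card + ((C.card - 1) + D.card) := by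
  unfold star
  rw [Finset.card_union_of_disjoint, Finset.card_union_of_disjoint, Finset.card_image_of_injective,
    Finset.card_image_of_injective, Finset.card_image_of_injective, Finset.card_erase_of_mem hC]
  · intro a b h
    simpa using congrFun h 0
  · intro a b h
    simpa using congrFun h 0
  · intro a b h
    simpa using congrFun h 1
  · rw [Finset.disjoint_left]
    intro w hw hw'
    simp only [Finset.mem_image] at hw hw'
    obtain ⟨x, hx, rfl⟩ := hw
    obtain ⟨y, hy, h⟩ := hw'
    have h0 := congrFun h 0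
    have h1 := congrFun h 1
    simp at h0 h1
    rw [h1] at hy
    exact hD hy
  · rw [Finset.disjoint_left]
    intro w hw hw'
    simp only [Finset.mem_union, Finset.mem_image] at hw hw'
    obtain ⟨x, hx, rfl⟩ := hw
    rcases hw' with ⟨y, hy, h⟩ | ⟨y, hy, h⟩
    · have h0 := congrFun h 0
      simp at h0
      rw [h0] at hy
      simp at hy
    · have h0 := congrFun h 0
      simp at h0
      rw [h0] at hy
      exact hD hy

theorem mem_star {C D : Finset (ZMod m)} (hC : (1 : ZMod m) ∈ C) (w : Wd m 1) :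
    w ∈ star C D ↔ (w 0 = 1 ∧ w 1 ∈ C) ∨ (w 1 = 1 ∧ w 0 ∈ C) ∨ (w 0 = w 1 ∧ w 0 ∈ D) := by
  unfold star
  simp only [Finset.mem_union, Finset.mem_image, Finset.mem_erase]
  constructor
  · rintro (⟨y, hy, rfl⟩ | ⟨y, hy, rfl⟩ | ⟨y, hy, rfl⟩)
    · left; simpa using hy
    · right; left; simpa using hy.2
    · right; right; simpa using hy
  · rintro (⟨h1, h2⟩ | ⟨h1, h2⟩ | ⟨h1, h2⟩)
    · left
      refine ⟨w 1, h2, ?_⟩
      funext i; fin_cases i <;> simp [h1]
    · by_cases h : w 0 = 1
      · left
        refine ⟨1, hC, ?_⟩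
        funext i; fin_cases i <;> simp [h1, h]
      · right; left
        refine ⟨w 0, ⟨h, h2⟩, ?_⟩
        funext i; fin_cases i <;> simp [h1]
    · right; right
      refine ⟨w 0, h2, ?_⟩
      funext i; fin_cases i <;> simp [h1]

theorem init_eq_iff (w : Wd m 1) (v : Fin 1 → ZMod m) : Fin.init w = v ↔ w 0 = v 0 := by
  constructor
  · intro h; rw [← h]; rfl
  · intro h; funext i; fin_cases i; exact h

theorem tail_eq_iff (w : Wd m 1) (v : Fin 1 → ZMod m) : Fin.tail w = v ↔ w 1 = v 0 := by
  constructor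
  · intro h; rw [← h]; rfl
  · intro h; funext i; fin_cases i; exact h

theorem tail_eq_init_iff (w w' : Wd m 1) : (Fin.tail w : Fin 1 → ZMod m) = Fin.init w' ↔ w 1 = w' 0 := by
  rw [tail_eq_iff]; rfl

theorem good_star [NeZero m] (h1m : 1 < m) (C D : Finset (ZMod m)) (h0 : (0 : ZMod m) ∈ C)
    (h1 : (1 : ZMod m) ∈ C) (hDC : D ⊆ C) (hD0 : (0 : ZMod m) ∉ D) : Good (star C D) := by
  have : Fact (1 < m) := ⟨h1m⟩
  have h11 : (![1, 1] : Wd m 1) ∈ star C D := by
    rw [mem_star h1]; left; simpa using h1
  have h10 : (![1, 0] : Wd m 1) ∈ star C D := by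
    rw [mem_star h1]; left; simpa using h0
  have h01 : (![0, 1] : Wd m 1) ∈ star C D := by
    rw [mem_star h1]; right; left; simpa using h0
  refine ⟨?_, ?_, ?_, ?_⟩
  · intro v
    apply Finset.card_bij (fun w _ => ![w 1, w 0])
    · intro w hw
      simp only [Finset.mem_filter, mem_star h1, init_eq_iff, tail_eq_iff, Matrix.cons_val_zero,
        Matrix.cons_val_one] at hw ⊢
      refine ⟨?_, hw.2⟩
      rcases hw.1 with h | h | h
      · right; left; exact h
      · left; exact h
      · right; right; exact ⟨h.1.symm, h.1 ▸ h.2⟩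
    · intro w _ w' _ h
      have e0 := congrFun h 0
      have e1 := congrFun h 1
      simp only [Matrix.cons_val_zero, Matrix.cons_val_one] at e0 e1
      funext i; fin_cases i
      · exact e1
      · exact e0
    · intro w hw
      simp only [Finset.mem_filter, mem_star h1, tail_eq_iff] at hw
      refine ⟨![w 1, w 0], ?_, ?_⟩
      · simp only [Finset.mem_filter, mem_star h1, init_eq_iff, Matrix.cons_val_zero,
          Matrix.cons_val_one]
        refine ⟨?_, hw.2⟩
        rcases hw.1 with h | h | h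
        · right; left; exact h
        · left; exact h
        · right; right; exact ⟨h.1.symm, h.1 ▸ h.2⟩
      · funext i; fin_cases i <;> simp
  · refine QQ_of_walks (e0 := ![1, 1]) (k1 := 3) (s1 := 2) (t1 := 3) (k2 := 1) (s2 := 1) (t2 := 0)
      ?_ ?_ ?_ ?_ (by ring)
    · intro w hw
      have hw' := hw
      rw [mem_star h1] at hw'
      have hw1 : w 1 ∈ C := by
        rcases hw' with h | h | h
        · exact h.2
        · rw [h.1]; exact h1
        · rw [← h.1]; exact hDC h.2
      have h2 : (![w 1, 1] : Wd m 1) ∈ star C D := by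
        rw [mem_star h1]; right; left; simpa using hw1
      exact ⟨_, _, _, ((Wlk.refl hw).step h2 (by rw [tail_eq_init_iff]; simp)).step h11
        (by rw [tail_eq_init_iff]; simp)⟩
    · intro w hw
      have hw' := hw
      rw [mem_star h1] at hw'
      have hw1 : w 0 ∈ C := by
        rcases hw' with h | h | h
        · rw [h.1]; exact h1
        · exact h.2
        · exact hDC h.2
      have h2 : (![1, w 0] : Wd m 1) ∈ star C D := by
        rw [mem_star h1]; left; simpa using hw1
      exact ⟨_, _, _, ((Wlk.refl h11).step h2 (by rw [tail_eq_init_iff]; simp)).step hw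
        (by rw [tail_eq_init_iff]; simp)⟩
    · have := (((Wlk.refl h11).step h10 (by rw [tail_eq_init_iff]; simp)).step h01
        (by rw [tail_eq_init_iff]; simp)).step h11 (by rw [tail_eq_init_iff]; simp)
      refine this.cast (by ring) ?_ ?_
      · simp; norm_num
      · simp; norm_num
    · have := (Wlk.refl h11).step h11 (by rw [tail_eq_init_iff]; simp)
      exact this.cast (by ring) (by simp) (by simp)
  · refine ⟨_, h01, ?_⟩
    rw [init_eq_iff]; simp
  · rw [mem_star h1]
    simp only [Pi.zero_apply, zero_ne_one, false_and, true_and, false_or]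
    exact hD0

theorem reach_of_short {L : ℕ} {H : Finset (Wd m L)} {e e0 : Wd m L} (he : e ∈ H) (he0 : e0 ∈ H)
    (h : (Fin.tail e = Fin.init e0) ∨ (∃ a ∈ H, Fin.tail e = Fin.init a ∧ Fin.tail a = Fin.init e0) ∨
      (∃ a ∈ H, ∃ b ∈ H, Fin.tail e = Fin.init a ∧ Fin.tail a = Fin.init b ∧
        Fin.tail b = Fin.init e0)) : ∃ k s t, Wlk H e e0 k s t := by
  rcases h with h | ⟨a, ha, h1, h2⟩ | ⟨a, ha, b, hb, h1, h2, h3⟩
  · exact ⟨_, _, _, (Wlk.refl he).step he0 h⟩
  · exact ⟨_, _, _, ((Wlk.refl he).step ha h1).step he0 h2⟩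
  · exact ⟨_, _, _, (((Wlk.refl he).step ha h1).step hb h2).step he0 h3⟩

/-- the special family for `m = 3` -/
def sp3 : Finset (Wd 3 1) := {![0, 1], ![1, 0], ![1, 2], ![2, 1]}

/-- the special family for `m = 4` -/
def sp4 : Finset (Wd 4 1) := {![0, 1], ![1, 3], ![3, 0], ![1, 1]}

theorem good_sp3 : Good sp3 := by
  refine ⟨?_, ?_, ?_, ?_⟩
  · unfold Bal; decide
  · refine QQ_of_walks (e0 := ![0, 1]) (k1 := 2) (s1 := 1) (t1 := 0) (k2 := 1) (s2 := 1) (t2 := 1)
      ?_ ?_ ?_ ?_ (by decide)
    · intro e he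
      apply reach_of_short he (by decide)
      revert e; decide
    · intro e he
      apply reach_of_short (by decide) he
      revert e; decide
    · have h1 : Wlk sp3 ![0, 1] ![0, 1] 0 0 0 := Wlk.refl (by decide)
      have h2 := h1.step (e'' := ![1, 0]) (by decide) (by decide)
      have h3 := h2.step (e'' := ![0, 1]) (by decide) (by decide)
      exact h3.cast (by decide) (by decide) (by decide)
    · have h1 : Wlk sp3 ![0, 1] ![0, 1] 0 0 0 := Wlk.refl (by decide)
      have h2 := h1.step (e'' := ![1, 2]) (by decide) (by decide)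
      have h3 := h2.step (e'' := ![2, 1]) (by decide) (by decide)
      have h4 := h3.step (e'' := ![1, 0]) (by decide) (by decide)
      have h5 := h4.step (e'' := ![0, 1]) (by decide) (by decide)
      exact h5.cast (by decide) (by decide) (by decide)
  · exact ⟨![0, 1], by decide, by decide⟩
  · decide

theorem good_sp4 : Good sp4 := by
  refine ⟨?_, ?_, ?_, ?_⟩
  · unfold Bal; decide
  · refine QQ_of_walks (e0 := ![1, 1]) (k1 := 1) (s1 := 1) (t1 := 0) (k2 := 0) (s2 := 1) (t2 := 0)
      ?_ ?_ ?_ ?_ (by decide)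
    · intro e he
      apply reach_of_short he (by decide)
      revert e; decide
    · intro e he
      apply reach_of_short (by decide) he
      revert e; decide
    · have h1 : Wlk sp4 ![1, 1] ![1, 1] 0 0 0 := Wlk.refl (by decide)
      have h2 := h1.step (e'' := ![1, 1]) (by decide) (by decide)
      exact h2.cast (by decide) (by decide) (by decide)
    · have h1 : Wlk sp4 ![1, 1] ![1, 1] 0 0 0 := Wlk.refl (by decide)
      have h2 := h1.step (e'' := ![1, 3]) (by decide) (by decide)
      have h3 := h2.step (e'' := ![3, 0]) (by decide) (by decide)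
      have h4 := h3.step (e'' := ![0, 1]) (by decide) (by decide)
      have h5 := h4.step (e'' := ![1, 1]) (by decide) (by decide)
      exact h5.cast (by decide) (by decide) (by decide)
  · exact ⟨![0, 1], by decide, by decide⟩
  · decide

theorem good_one (hm : 3 ≤ m) (n : ℕ) (h1 : m ≤ n) (h2 : n < m ^ 2) :
    ∃ H : Finset (Wd m 1), Good H ∧ H.card = n := by
  have hne : NeZero m := ⟨by omega⟩
  have hf : Fact (1 < m) := ⟨by omega⟩
  by_cases hn : 2 * m ≤ n
  · have hq := good_zero hm (n / m) ((Nat.le_div_iff_mul_le (by omega)).mpr hn)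
      ((Nat.div_lt_iff_lt_mul (by omega)).mpr (by rw [← sq]; exact h2))
    obtain ⟨H, hH, hc⟩ := good_succ hm hq (n % m) (Nat.mod_lt _ (by omega))
    exact ⟨H, hH, by rw [hc, Nat.div_add_mod]⟩
  · push Not at hn
    by_cases h4 : n = 4
    · have : m = 3 ∨ m = 4 := by omega
      rcases this with rfl | rfl
      · exact ⟨sp3, good_sp3, by rw [h4]; decide⟩
      · exact ⟨sp4, good_sp4, by rw [h4]; decide⟩
    · have h01 : (0 : ZMod m) ≠ 1 := zero_ne_one
      have hCex : ∀ c : ℕ, 2 ≤ c → c ≤ m → ∃ C : Finset (ZMod m), 0 ∈ C ∧ 1 ∈ C ∧ C.card = c := by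
        intro c hc1 hc2
        obtain ⟨S, hS1, -, hS3⟩ := Finset.exists_subsuperset_card_eq
          (s := ({0, 1} : Finset (ZMod m))) (t := Finset.univ) (n := c) (Finset.subset_univ _)
          (by rw [Finset.card_pair h01]; exact hc1)
          (by rw [Finset.card_univ, ZMod.card]; exact hc2)
        exact ⟨S, hS1 (by simp), hS1 (by simp), hS3⟩
      rcases Nat.even_or_odd n with ⟨k, hk⟩ | ⟨k, hk⟩
      · obtain ⟨C, hC0, hC1, hC⟩ := hCex k (by omega) (by omega)
        obtain ⟨d, hd⟩ : ∃ d, d ∈ (C.erase 0).erase 1 := by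
          apply Finset.card_pos.mp
          rw [Finset.card_erase_of_mem (by simp [hC1]), Finset.card_erase_of_mem hC0]
          omega
        simp only [Finset.mem_erase] at hd
        refine ⟨star C {d}, good_star (by omega) C {d} hC0 hC1 (by simpa using hd.2.2)
          (by simpa using hd.2.1.symm), ?_⟩
        rw [star_card C {d} hC1 (by simpa using hd.1.symm), hC, Finset.card_singleton]
        omega
      · obtain ⟨C, hC0, hC1, hC⟩ := hCex (k + 1) (by omega) (by omega)
        refine ⟨star C ∅, good_star (by omega) C ∅ hC0 hC1 (by simp) (by simp), ?_⟩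
        rw [star_card C ∅ hC1 (by simp), hC, Finset.card_empty]
        omega

theorem good_all (hm : 3 ≤ m) (L : ℕ) : ∀ n : ℕ, m ^ (L+1) ≤ n → n < m ^ (L+2) →
    ∃ H : Finset (Wd m (L+1)), Good H ∧ H.card = n := by
  induction L with
  | zero => intro n h1 h2; exact good_one hm n (by simpa using h1) (by simpa using h2)
  | succ L ih =>
    intro n h1 h2
    have hq := ih (n / m) ((Nat.le_div_iff_mul_le (by omega)).mpr (by rw [← pow_succ]; exact h1))
      ((Nat.div_lt_iff_lt_mul (by omega)).mpr (by rw [← pow_succ]; exact h2))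
    obtain ⟨H, hH, hc⟩ := good_succ hm hq (n % m) (Nat.mod_lt _ (by omega))
    exact ⟨H, hH, by rw [hc, Nat.div_add_mod]⟩

theorem univ_ok [NeZero m] (L : ℕ) : Bal (Finset.univ : Finset (Wd m L)) ∧
    QQ (Finset.univ : Finset (Wd m L)) := by
  induction L with
  | zero => exact ⟨Bal_zero _, QQ_zero _ (Finset.mem_univ _) (Finset.mem_univ _)⟩
  | succ L ih =>
    rw [← lift_univ]
    exact ⟨ih.1.lift, ih.2.lift⟩

theorem sizes (hm : 3 ≤ m) (L n : ℕ) (h1 : m ^ L < n) (h2 : n ≤ m ^ (L+1)) :
    ∃ H : Finset (Wd m L), Bal H ∧ QQ H ∧ H.card = n := by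
  have hne : NeZero m := ⟨by omega⟩
  rcases h2.lt_or_eq with h | h
  · cases L with
    | zero =>
      obtain ⟨H, hH, hc⟩ := good_zero hm n (Nat.succ_le_of_lt (by simpa using h1)) (by simpa using h)
      exact ⟨H, hH.bal, hH.qq, hc⟩
    | succ L =>
      obtain ⟨H, hH, hc⟩ := good_all hm L n h1.le h
      exact ⟨H, hH.bal, hH.qq, hc⟩
  · refine ⟨Finset.univ, (univ_ok L).1, (univ_ok L).2, ?_⟩
    rw [Finset.card_univ, Fintype.card_fun, ZMod.card, Fintype.card_fin, h]

end R91.GDB
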