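import Mathlib
import Pool.Agent.R91.GDB.Euler
import Pool.Agent.R91.GDB.Sizes

/-!
# Balanced generalized de Bruijn sequences over `ZMod m`
-/

namespace R91.GDB

open Relation

variable {m : ℕ}

theorem conn_of_QQ (hm : 1 < m) {L : ℕ} {H : Finset (Wd m L)} (hQ : QQ H) {E : Type*}
    (wd : E → Wd m L) (hin : ∀ e, wd e ∈ H) (hsurj : ∀ w ∈ H, ∃ e, wd e = w) :
    ∀ e f, ReflTransGen (fun e f => Fin.tail (wd e) = Fin.init (wd f)) e f := by
  have : Fact (1 < m) := ⟨hm⟩
  intro e f
  have key : ∀ (w : Wd m L) (k s t : ZMod m), Wlk H (wd e) w k s t →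
      (k = 0 ∧ wd e = w) ∨ ∀ f, wd f = w →
        ReflTransGen (fun e f => Fin.tail (wd e) = Fin.init (wd f)) e f := by
    intro w k s t h
    induction h with
    | refl _ => exact Or.inl ⟨rfl, rfl⟩
    | @step e' e'' k s t h1 h2 h3 ih =>
      right
      intro f hf
      rcases ih with ⟨_, ih⟩ | ih
      · apply ReflTransGen.single
        rw [hf, ih, h3]
      · obtain ⟨g, hg⟩ := hsurj e' h1.right_mem
        refine (ih g hg).tail ?_
        rw [hf, hg, h3]
  obtain ⟨t, ht⟩ := hQ (wd e) (hin e) (wd f) (hin f) 1 0
  rcases key _ _ _ _ ht with ⟨h, _⟩ | h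
  · exact absurd h one_ne_zero
  · exact h f rfl

theorem card_filter_subtype' {α : Type*} [DecidableEq α] (H : Finset α) (P : α → Prop)
    [DecidablePred P] :
    (Finset.univ.filter (fun e : {x // x ∈ H} => P e.1)).card = (H.filter P).card := by
  apply Finset.card_bij (fun e _ => e.1)
  · intro e he
    simp only [Finset.mem_filter, Finset.mem_univ, true_and] at he ⊢
    exact ⟨e.2, he⟩
  · intro a _ b _ h
    exact Subtype.ext h
  · intro b hb
    simp only [Finset.mem_filter] at hb
    exact ⟨⟨b, hb.1⟩, by simpa using hb.2, rfl⟩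

/-- number of occurrences -/
def oc {n : ℕ} [NeZero n] (a : ZMod n → ZMod m) {l : ℕ} (w : Fin l → ZMod m) : ℕ :=
  (Finset.univ.filter (fun i : ZMod n => ∀ j : Fin l, a (i + ((j : ℕ) : ZMod n)) = w j)).card

theorem exF (hm : 3 ≤ m) (L : ℕ) : ∀ (n : ℕ) [NeZero n], m ∣ n → n ≤ m ^ (L+1) →
    ∃ a : ZMod n → ZMod m, (∀ x, m * (Finset.univ.filter (fun i => a i = x)).card = n) ∧
      ∀ w : Fin (L+1) → ZMod m, oc a w ≤ 1 := by
  have hne : NeZero m := ⟨by omega⟩
  induction L with
  | zero =>
    intro n hn hdiv hle
    have hnm : n = m := by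
      apply le_antisymm (by simpa using hle)
      exact Nat.le_of_dvd (Nat.pos_of_ne_zero (NeZero.ne n)) hdiv
    subst hnm
    refine ⟨fun i => i, ?_, ?_⟩
    · intro x
      simp [Finset.filter_eq']
    · intro w
      unfold oc
      rw [Finset.card_le_one]
      intro i hi j hj
      simp only [Finset.mem_filter, Finset.mem_univ, true_and] at hi hj
      have h1 := hi 0
      have h2 := hj 0
      simp at h1 h2
      rw [h1, h2]
  | succ L ih =>
    intro n hn hdiv hle
    by_cases hn1 : n ≤ m ^ (L+1)
    · obtain ⟨a, ha1, ha2⟩ := ih n hdiv hn1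
      refine ⟨a, ha1, ?_⟩
      intro w
      refine le_trans (Finset.card_le_card ?_) (ha2 (Fin.init w))
      intro i hi
      simp only [Finset.mem_filter, Finset.mem_univ, true_and] at hi ⊢
      intro j
      exact hi j.castSucc
    · push Not at hn1
      obtain ⟨q, rfl⟩ := hdiv
      have hm0 : 0 < m := by omega
      have hq1 : m ^ L < q := by
        rw [pow_succ, mul_comm] at hn1
        exact Nat.lt_of_mul_lt_mul_left hn1
      have hq2 : q ≤ m ^ (L+1) := by
        rw [pow_succ, mul_comm (m ^ (L+1))] at hle
        exact Nat.le_of_mul_le_mul_left hle hm0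
      obtain ⟨H, hB, hQ, hc⟩ := sizes hm L q hq1 hq2
      have hB' := hB.lift
      have hQ' := hQ.lift
      have hcard : Fintype.card {x // x ∈ lft H} = m * q := by
        rw [Fintype.card_coe, lift_card, hc]
      obtain ⟨a, ha1, ha2⟩ := seq_counts hcard (fun e => e.1)
        (by
          intro v
          have := hB' v
          rw [← card_filter_subtype' (lft H) (fun e => Fin.init e = v),
            ← card_filter_subtype' (lft H) (fun e => Fin.tail e = v)] at this
          exact this)
        (conn_of_QQ (by omega) hQ' (fun e : {x // x ∈ lft H} => e.1) (fun e => e.2)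
          (fun w hw => ⟨⟨w, hw⟩, rfl⟩))
      refine ⟨a, ?_, ?_⟩
      · intro x
        rw [ha2 x, card_filter_subtype' (lft H) (fun e => e 0 = x), lift_filter_card, hc]
      · intro w
        unfold oc
        rw [ha1 w, card_filter_subtype' (lft H) (fun e => e = w), Finset.card_le_one]
        intro i hi j hj
        simp only [Finset.mem_filter] at hi hj
        rw [hi.2, hj.2]

theorem first_card [NeZero m] (L : ℕ) (x : ZMod m) :
    (Finset.univ.filter (fun w : Wd m L => w 0 = x)).card = m ^ L := by
  cases L with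
  | zero =>
    rw [pow_zero, Finset.card_eq_one]
    refine ⟨fun _ => x, ?_⟩
    ext w
    simp only [Finset.mem_filter, Finset.mem_univ, true_and, Finset.mem_singleton]
    constructor
    · intro h
      funext i
      have hi : i = 0 := Fin.ext (by have := i.2; simp only [zero_add] at this; simp)
      rw [hi, h]
    · intro h
      rw [h]
  | succ L =>
    rw [← lift_univ, lift_filter_card, Finset.card_univ, Fintype.card_fun, ZMod.card,
      Fintype.card_fin]

theorem exG (hm : 3 ≤ m) (L n k : ℕ) [NeZero n] (hdiv : m ∣ n) (hle : n ≤ k * m ^ (L+1)) :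
    ∃ a : ZMod n → ZMod m, (∀ x, m * (Finset.univ.filter (fun i => a i = x)).card = n) ∧
      ∀ w : Fin (L+1) → ZMod m, oc a w ≤ k := by
  have hne : NeZero m := ⟨by omega⟩
  have hpos : 0 < n := Nat.pos_of_ne_zero (NeZero.ne n)
  have hM : 0 < m ^ (L+1) := pow_pos (by omega) _
  obtain ⟨q, n0, hq, hn0, hn0'⟩ : ∃ q n0, n = q * m ^ (L+1) + n0 ∧ 0 < n0 ∧ n0 ≤ m ^ (L+1) := by
    refine ⟨(n - 1) / m ^ (L+1), (n - 1) % m ^ (L+1) + 1, ?_, Nat.succ_pos _, ?_⟩
    · have := Nat.div_add_mod (n - 1) (m ^ (L+1))
      rw [mul_comm] at this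
      omega
    · exact Nat.mod_lt _ hM
  have hqk : q + 1 ≤ k := by
    by_contra h
    push Not at h
    have h1 : k ≤ q := by omega
    have : k * m ^ (L+1) ≤ q * m ^ (L+1) := Nat.mul_le_mul_right _ h1
    omega
  have hn0ne : NeZero n0 := ⟨by omega⟩
  have hdiv0 : m ∣ n0 := by
    have h1 : m ∣ q * m ^ (L+1) := Dvd.dvd.mul_left (dvd_pow_self m (by omega)) q
    rw [hq] at hdiv
    exact (Nat.dvd_add_right h1).mp hdiv
  obtain ⟨b, hb1, hb2⟩ := exF hm L n0 hdiv0 hn0'
  rcases Nat.eq_zero_or_pos q with hq0 | hq0
  · subst hq0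
    have : n = n0 := by simpa using hq
    subst this
    exact ⟨b, hb1, fun w => (hb2 w).trans (by omega)⟩
  · let E := (Fin q × Wd m L) ⊕ ZMod n0
    let wd : E → Wd m L := Sum.elim (fun x => x.2) (fun i j => b (i + ((j : ℕ) : ZMod n0)))
    have hcount : ∀ (P : Wd m L → Prop) [DecidablePred P],
        (Finset.univ.filter (fun e : E => P (wd e))).card
        = q * (Finset.univ.filter (fun w : Wd m L => P w)).card
          + (Finset.univ.filter (fun i : ZMod n0 => P (fun j => b (i + ((j : ℕ) : ZMod n0))))).card := by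
      intro P _
      rw [Finset.card_filter, Finset.card_filter, Finset.card_filter, Fintype.sum_sum_type,
        Fintype.sum_prod_type]
      congr 1
      calc (∑ x : Fin q, ∑ y : Wd m L, if P (wd (Sum.inl (x, y))) then 1 else 0)
          = ∑ x : Fin q, ∑ y : Wd m L, (if P y then 1 else 0) := rfl
        _ = q * ∑ y : Wd m L, (if P y then 1 else 0) := by
            rw [Finset.sum_const, Finset.card_univ, Fintype.card_fin, smul_eq_mul]
    have hcard : Fintype.card E = n := by
      simp only [E, Fintype.card_sum, Fintype.card_prod, Fintype.card_fin, Fintype.card_fun,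
        ZMod.card]
      exact hq.symm
    have hbal : ∀ v : Fin L → ZMod m, (Finset.univ.filter (fun e => Fin.init (wd e) = v)).card
      = (Finset.univ.filter (fun e => Fin.tail (wd e) = v)).card := by
      intro v
      rw [hcount (fun w => Fin.init w = v), hcount (fun w => Fin.tail w = v), (univ_ok L).1 v]
      congr 1
      symm
      apply Finset.card_bij (fun i _ => i + 1)
      · intro i hi
        simp only [Finset.mem_filter, Finset.mem_univ, true_and] at hi ⊢
        rw [← hi]
        funext j
        simp only [Fin.init, Fin.tail, Fin.val_castSucc, Fin.val_succ]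
        congr 1
        push_cast; ring
      · intro i _ j _ h
        exact add_right_cancel h
      · intro i hi
        refine ⟨i - 1, ?_, by ring⟩
        simp only [Finset.mem_filter, Finset.mem_univ, true_and] at hi ⊢
        rw [← hi]
        funext j
        simp only [Fin.init, Fin.tail, Fin.val_castSucc, Fin.val_succ]
        congr 1
        push_cast; ring
    have hconn := conn_of_QQ (by omega) (univ_ok (m := m) L).2 wd (fun _ => Finset.mem_univ _)
      (fun w _ => ⟨Sum.inl (⟨0, hq0⟩, w), rfl⟩)
    obtain ⟨a, ha1, ha2⟩ := seq_counts hcard wd hbal hconn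
    refine ⟨a, ?_, ?_⟩
    · intro x
      rw [ha2 x, hcount (fun w => w 0 = x)]
      have h1 : (Finset.univ.filter (fun w : Wd m L => w 0 = x)).card = m ^ L := first_card L x
      have h2 : (Finset.univ.filter (fun i : ZMod n0 =>
          (fun j : Fin (L+1) => b (i + ((j : ℕ) : ZMod n0))) 0 = x)).card
          = (Finset.univ.filter (fun i : ZMod n0 => b i = x)).card := by
        simp
      rw [h1, h2, mul_add, hb1 x, hq, pow_succ]
      ring
    · intro w
      unfold oc
      rw [ha1 w, hcount (fun u => u = w)]
      have h1 : (Finset.univ.filter (fun u : Wd m L => u = w)).card = 1 := by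
        rw [Finset.filter_eq' Finset.univ w]; simp
      have h2 : (Finset.univ.filter (fun i : ZMod n0 =>
          (fun j : Fin (L+1) => b (i + ((j : ℕ) : ZMod n0))) = w)).card = oc b w := by
        unfold oc
        congr 1
        apply Finset.filter_congr
        intro i _
        exact funext_iff
      rw [h1, h2]
      have := hb2 w
      omega

end R91.GDB
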